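import Pool.Agent.H130R9.SF6

set_option autoImplicit false
set_option linter.all false

open Set Metric Topology Filter

namespace Pool.Agent.Results.MP_a8a0a5_an.BoundedMultiplicity

open Pool.Agent.H130R9

/-- No infinite-dimensional separable real Banach space (in any norm) has a star-finite covering by
closed balls of positive radius whose multiplicity and radii are locally bounded: every point `x`
has a ball around it such that all points `y` of it lie in at most `N` members, each of radius at
most `M`. -/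
theorem result {X : Type*} [NormedAddCommGroup X] [NormedSpace ℝ X] [CompleteSpace X]
    [TopologicalSpace.SeparableSpace X] (hX : ¬ FiniteDimensional ℝ X)
    {ι : Type*} (c : ι → X) (r : ι → ℝ) :
    ¬ ((∀ i, 0 < r i) ∧ (⋃ i, closedBall (c i) (r i)) = univ ∧
      (∀ i, {j | (closedBall (c i) (r i) ∩ closedBall (c j) (r j)).Nonempty}.Finite) ∧
      ∀ x : X, ∃ ρ > (0:ℝ), ∃ (N : ℕ) (M : ℝ), ∀ y ∈ ball x ρ,
        {i | y ∈ closedBall (c i) (r i)}.ncard ≤ N ∧ ∀ i, y ∈ closedBall (c i) (r i) → r i ≤ M) := by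
  rintro ⟨hpos, hcov, hstar, hbdd⟩
  obtain ⟨S, hS⟩ := exists_cov hpos hcov hstar
  obtain ⟨i₀, x₀, δ, L⟩ := exists_loc hX hS
  obtain ⟨ρ, hρ, N, M, hNM⟩ := hbdd x₀
  refine no_loc_bdd hX hS L hρ (N := N) (M₀ := M) ?_ ?_
  · intro y hy
    refine le_trans ?_ (hNM y hy).1
    have hfin : {i | y ∈ closedBall (c i) (r i)}.Finite := by
      have hy' : y ∈ ⋃ i, closedBall (c i) (r i) := by rw [hcov]; trivial
      obtain ⟨i, hi⟩ := mem_iUnion.1 hy'
      exact (hstar i).subset fun j hj => ⟨y, hi, hj⟩
    exact Set.ncard_le_ncard_of_injOn (fun i : S => (i : ι)) (fun i hi => hi)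
      (Subtype.val_injective.injOn) hfin
  · intro y hy i hi
    exact (hNM y hy).2 i.1 hi

end Pool.Agent.Results.MP_a8a0a5_an.BoundedMultiplicity
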