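import Pool.Agent.H621R3.SF3

/-!
# MP_a8a0a5_an: a star-finite covering by closed balls forces Kottman constant 2

Let `X` be an infinite-dimensional separable real Banach space with a star-finite covering by
closed balls.  Then `X` contains a sequence `v₀, v₁, …` with `‖v₀‖ = 1`, `‖vₙ‖ → 1` and all mutual
distances `> 2`; in particular its Kottman constant is `2`.
-/

set_option autoImplicit false

open Set Metric Filter Topology

namespace Pool.Agent.Results.MP_a8a0a5_an.KottmanTwo

/-- the closed balls `B(c i, r i)`, `i ∈ ι`, have positive radii, cover `E`, and each of them meets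
only finitely many of them -/
def IsStarFiniteBallCovering {E ι : Type} [NormedAddCommGroup E] (c : ι → E) (r : ι → ℝ) : Prop :=
  (∀ i, 0 < r i) ∧ (⋃ i, closedBall (c i) (r i)) = univ ∧
    ∀ i, {j : ι | (closedBall (c i) (r i) ∩ closedBall (c j) (r j)).Nonempty}.Finite

theorem result : ∀ (E : Type) [NormedAddCommGroup E] [NormedSpace ℝ E] [CompleteSpace E]
    [TopologicalSpace.SeparableSpace E], ¬ FiniteDimensional ℝ E →
    (∃ (ι : Type) (c : ι → E) (r : ι → ℝ), IsStarFiniteBallCovering c r) →
    ∃ v : ℕ → E, ‖v 0‖ = 1 ∧ Tendsto (fun n => ‖v n‖) atTop (𝓝 1) ∧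
        ∀ m n, m ≠ n → 2 < ‖v m - v n‖ := by
  intro E _ _ _ _ hE ⟨ι, c, r, hr, hU, hsf⟩
  have hcov : ∀ y : E, ∃ i, y ∈ closedBall (c i) (r i) := by
    intro y
    have : y ∈ ⋃ i, closedBall (c i) (r i) := hU ▸ mem_univ y
    simpa using this
  exact H621R3.SF.kottman hr hE hcov hsf

end Pool.Agent.Results.MP_a8a0a5_an.KottmanTwo
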