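import Pool.Agent.H621R3.SG

/-!
# MP_a8a0a5_an: a local criterion against star-finite coverings by closed balls

Let `E` be an infinite-dimensional separable real Banach space.  Suppose that densely many `v ∈ E`
satisfy one of two local conditions: the norm is not locally octahedral at `v`, or the norm has a
common direction of linear growth at finitely many unit vectors nearly opposite to `v`.  Then `E` has
no star-finite covering by closed balls.
-/

set_option autoImplicit false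

open Set Metric Filter Topology

namespace Pool.Agent.Results.MP_a8a0a5_an.LocalSlope

/-- the closed balls `B(c i, r i)`, `i ∈ ι`, have positive radii, cover `E`, and each of them meets
only finitely many of them -/
def IsStarFiniteBallCovering {E ι : Type} [NormedAddCommGroup E] (c : ι → E) (r : ι → ℝ) : Prop :=
  (∀ i, 0 < r i) ∧ (⋃ i, closedBall (c i) (r i)) = univ ∧
    ∀ i, {j : ι | (closedBall (c i) (r i) ∩ closedBall (c j) (r j)).Nonempty}.Finite

/-- the norm is not locally octahedral at `v`: for some `s, η > 0` all unit vectors `u` satisfy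
`‖v + s u‖ + ‖v - s u‖ ≤ 2 ‖v‖ + 2 s - η` -/
def NotLocallyOctahedralAt {E : Type} [NormedAddCommGroup E] [NormedSpace ℝ E] (v : E) : Prop :=
  ∃ s > (0 : ℝ), ∃ η > (0 : ℝ), ∀ u : E, ‖u‖ = 1 →
    ‖v + s • u‖ + ‖v - s • u‖ ≤ 2 * ‖v‖ + 2 * s - η

/-- for some `a, η > 0`: whenever `Y` is a finite set of unit vectors `y` with
`‖v/‖v‖ - y‖ ≥ 2 - η`, `Z` is a finite set and `ε > 0`, there is a unit vector `u` such that for
`0 ≤ t ≤ 1` one has `‖y + t u‖ ≥ 1 + a t - ε` for `y ∈ Y` and `‖z + t u‖ ≥ ‖z‖ - ε` for `z ∈ Z` -/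
def HasOppositeSlopeAt {E : Type} [NormedAddCommGroup E] [NormedSpace ℝ E] (v : E) : Prop :=
  ∃ a > (0 : ℝ), ∃ η > (0 : ℝ), ∀ Y Z : Finset E,
    (∀ y ∈ Y, ‖y‖ = 1 ∧ 2 - η ≤ ‖‖v‖⁻¹ • v - y‖) → ∀ ε > (0 : ℝ), ∃ u : E, ‖u‖ = 1 ∧
      (∀ y ∈ Y, ∀ t : ℝ, 0 ≤ t → t ≤ 1 → 1 + a * t - ε ≤ ‖y + t • u‖) ∧
      (∀ z ∈ Z, ∀ t : ℝ, 0 ≤ t → t ≤ 1 → ‖z‖ - ε ≤ ‖z + t • u‖)

theorem result : ∀ (E : Type) [NormedAddCommGroup E] [NormedSpace ℝ E] [CompleteSpace E]
    [TopologicalSpace.SeparableSpace E], ¬ FiniteDimensional ℝ E →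
    Dense {v : E | NotLocallyOctahedralAt v ∨ HasOppositeSlopeAt v} →
    ¬ ∃ (ι : Type) (c : ι → E) (r : ι → ℝ), IsStarFiniteBallCovering c r := by
  intro E _ _ _ _ hE H ⟨ι, c, r, hr, hU, hsf⟩
  obtain ⟨S, hS⟩ := H130R9.exists_cov hr hU hsf
  exact H621R3.SG.no_cover hE H hS

end Pool.Agent.Results.MP_a8a0a5_an.LocalSlope
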