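import Pool.Agent.H130R9.SF4

set_option autoImplicit false
set_option linter.all false

open Set Metric Topology Filter

namespace Pool.Agent.Results.MP_a8a0a5_an.NoStarFiniteCover

open Pool.Agent.H130R9

/-- A separable infinite-dimensional real Banach space has no star-finite covering by closed balls
(of positive radii) as soon as its norm satisfies one of the following:
(A) a dense set of vectors `v` for which some `s, η > 0` satisfy
    `‖v + s u‖ + ‖v - s u‖ ≤ 2‖v‖ + 2s - η` for all unit vectors `u`;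
(B) for some `a > 0`, every finite set `F` and `ε > 0` admit a unit vector `u` with
    `‖v + t u‖ ≥ ‖v‖ + a t - ε` for all `v ∈ F`, `t ≥ 0`;
(C) the norm is Fréchet differentiable at a dense set of points;
(D) the norm is locally uniformly rotund;
(E) the norm is octahedral. -/
theorem result {X : Type*} [NormedAddCommGroup X] [NormedSpace ℝ X] [CompleteSpace X]
    [TopologicalSpace.SeparableSpace X] (hX : ¬ FiniteDimensional ℝ X)
    (H : Dense {v : X | ∃ s > (0:ℝ), ∃ η > (0:ℝ), ∀ u : X, ‖u‖ = 1 →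
          ‖v + s • u‖ + ‖v - s • u‖ ≤ 2 * ‖v‖ + 2 * s - η} ∨
        (∃ a > (0:ℝ), ∀ F : Finset X, ∀ ε > (0:ℝ), ∃ u : X, ‖u‖ = 1 ∧ ∀ v ∈ F, ∀ t : ℝ, 0 ≤ t →
          ‖v‖ + a * t - ε ≤ ‖v + t • u‖) ∨
        Dense {v : X | DifferentiableAt ℝ (fun y : X => ‖y‖) v} ∨
        (∀ x : X, ‖x‖ = 1 → ∀ y : ℕ → X, (∀ n, ‖y n‖ = 1) →
          Tendsto (fun n => ‖x + y n‖) atTop (𝓝 2) → Tendsto y atTop (𝓝 x)) ∨
        (∀ F : Finset X, (∀ x ∈ F, ‖x‖ = 1) → ∀ ε > (0:ℝ), ∃ y : X, ‖y‖ = 1 ∧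
          ∀ x ∈ F, 2 - ε ≤ ‖x + y‖))
    {ι : Type*} (c : ι → X) (r : ι → ℝ) :
    ¬ ((∀ i, 0 < r i) ∧ (⋃ i, closedBall (c i) (r i)) = univ ∧
      ∀ i, {j | (closedBall (c i) (r i) ∩ closedBall (c j) (r j)).Nonempty}.Finite) := by
  rintro ⟨hpos, hcov, hstar⟩
  obtain ⟨S, hS⟩ := exists_cov hpos hcov hstar
  obtain ⟨i₀, x₀, δ, L⟩ := exists_loc hX hS
  rcases H with H | H | H | H | H
  · exact no_loc_nlo hX hS L H
  · exact no_loc_slow hX hS L H
  · exact no_loc_nlo hX hS L (H.mono fun v hv => nlo_of_diff hv)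
  · haveI : Nontrivial X := by
      by_contra hno
      rw [not_nontrivial_iff_subsingleton] at hno
      exact hX inferInstance
    exact no_loc_nlo hX hS L ((dense_compl_singleton (0:X)).mono fun v hv => nlo_of_lur H hv)
  · exact no_loc_slow hX hS L (slow_of_octahedral H)

end Pool.Agent.Results.MP_a8a0a5_an.NoStarFiniteCover
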